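import Mathlib

set_option autoImplicit false

namespace Pool.Agent.Lib.MP_8888ff_co

open SimpleGraph

variable {V : Type*}

/-- An acyclic graph on a nonempty finite vertex type has a vertex of degree at most one. -/
lemma exists_degree_le_one' [Fintype V] [Nonempty V] (H : SimpleGraph V) (hH : H.IsAcyclic) :
    ∃ v, (H.neighborSet v).ncard ≤ 1 := by
  classical
  obtain ⟨T, hle, hT⟩ := SimpleGraph.exists_maximal_isAcyclic_of_le_isAcyclic (G := ⊤) le_top hH
  have hT' : Maximal IsAcyclic T := by
    refine ⟨hT.prop.2, fun T' hT' hle' => hT.le_of_ge ⟨le_top, hT'⟩ hle'⟩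
  rw [maximal_isAcyclic_iff_isTree] at hT'
  rcases subsingleton_or_nontrivial V with hs | hn
  · obtain ⟨v⟩ := ‹Nonempty V›
    refine ⟨v, ?_⟩
    have : H.neighborSet v = ∅ := by
      ext y
      simp only [mem_neighborSet, Set.mem_empty_iff_false, iff_false]
      rw [Subsingleton.elim y v]
      exact H.irrefl
    rw [this]
    simp
  · obtain ⟨v, hv⟩ := hT'.exists_vert_degree_one_of_nontrivial
    refine ⟨v, ?_⟩
    have h1 : H.neighborSet v ⊆ (T.neighborFinset v : Set V) := by
      intro y hy
      simp only [coe_neighborFinset, mem_neighborSet]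
      exact hle hy
    refine (Set.ncard_le_ncard h1 (Finset.finite_toSet _)).trans ?_
    rw [Set.ncard_coe_finset, card_neighborFinset_eq_degree, hv]

end Pool.Agent.Lib.MP_8888ff_co
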