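import Mathlib

set_option autoImplicit false

namespace Pool.Agent.Lib.MP_8888ff_co

open SimpleGraph Finset

section Deletion

/-- number of functions vanishing on a set -/
lemma card_vanish (M : Type) [Fintype M] [DecidableEq M] (q : ℕ) (A : Finset M) :
    (univ.filter (fun f : M → Fin (q + 1) => ∀ a ∈ A, f a = 0)).card * (q + 1) ^ A.card
      = (q + 1) ^ (Fintype.card M) := by
  have h1 : (univ.filter (fun f : M → Fin (q + 1) => ∀ a ∈ A, f a = 0))
      = Fintype.piFinset (fun x : M => if x ∈ A then ({0} : Finset (Fin (q + 1))) else univ) := by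
    ext f
    simp only [mem_filter, mem_univ, true_and, Fintype.mem_piFinset]
    constructor
    · intro h a
      by_cases ha : a ∈ A
      · simp [ha, h a ha]
      · simp [ha]
    · intro h a ha
      have := h a
      simpa [ha] using this
  rw [h1, Fintype.card_piFinset]
  have h2 : ∀ x : M, (if x ∈ A then ({0} : Finset (Fin (q + 1))) else univ).card
      = if x ∈ A then 1 else q + 1 := by
    intro x
    split_ifs <;> simp
  simp only [h2]
  rw [Finset.prod_ite]
  simp only [prod_const_one, one_mul, prod_const]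
  have h3 : (univ.filter (fun x => x ∉ A)).card + A.card = Fintype.card M := by
    have := Finset.card_compl_add_card A
    rw [← this]
    congr 2
    ext x
    simp
  rw [← pow_add, h3]

lemma exists_fun (M : Type) [Fintype M] [DecidableEq M] (q : ℕ) (E : Finset M)
    (ι : Type) [Fintype ι] (A : ι → Finset M) (K : ℝ)
    (hK : ∑ i, (1 : ℝ) / ((q : ℝ) + 1) ^ (A i).card ≤ K) :
    ∃ f : M → Fin (q + 1), (E.card : ℝ) / ((q : ℝ) + 1) - K ≤
      ((E.filter (fun e => f e = 0)).card : ℝ)
        - ((univ.filter (fun i => ∀ a ∈ A i, f a = 0)).card : ℝ) := by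
  classical
  by_contra hcon
  push Not at hcon
  have hpos : (0 : ℝ) < (q : ℝ) + 1 := by positivity
  have hcv : ∀ B : Finset M, ((univ.filter (fun f : M → Fin (q + 1) => ∀ a ∈ B, f a = 0)).card : ℝ)
      = ((q : ℝ) + 1) ^ (Fintype.card M) / ((q : ℝ) + 1) ^ B.card := by
    intro B
    rw [eq_div_iff (by positivity)]
    exact_mod_cast card_vanish M q B
  have hsum := Finset.sum_lt_sum_of_nonempty (s := (univ : Finset (M → Fin (q + 1))))
    univ_nonempty (fun f _ => hcon f)
  rw [Finset.sum_const, Finset.sum_sub_distrib] at hsum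
  have hs1 : ∑ f : M → Fin (q + 1), ((E.filter (fun e => f e = 0)).card : ℝ)
      = (E.card : ℝ) * (((q : ℝ) + 1) ^ (Fintype.card M) / ((q : ℝ) + 1)) := by
    have : ∀ f : M → Fin (q + 1), ((E.filter (fun e => f e = 0)).card : ℝ)
        = ∑ e ∈ E, if f e = 0 then (1 : ℝ) else 0 := by
      intro f
      rw [Finset.card_filter]
      push_cast
      rfl
    simp only [this]
    rw [Finset.sum_comm]
    have h4 : ∀ e ∈ E, ∑ f : M → Fin (q + 1), (if f e = 0 then (1 : ℝ) else 0)
        = ((q : ℝ) + 1) ^ (Fintype.card M) / ((q : ℝ) + 1) := by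
      intro e _
      have h5 := hcv {e}
      simp only [mem_singleton, forall_eq, card_singleton, pow_one] at h5
      rw [← h5, Finset.card_filter]
      push_cast
      rfl
    rw [Finset.sum_congr rfl h4, Finset.sum_const, nsmul_eq_mul]
  have hs2 : ∑ f : M → Fin (q + 1), ((univ.filter (fun i => ∀ a ∈ A i, f a = 0)).card : ℝ)
      = ∑ i, ((q : ℝ) + 1) ^ (Fintype.card M) / ((q : ℝ) + 1) ^ (A i).card := by
    have : ∀ f : M → Fin (q + 1), ((univ.filter (fun i => ∀ a ∈ A i, f a = 0)).card : ℝ)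
        = ∑ i, if ∀ a ∈ A i, f a = 0 then (1 : ℝ) else 0 := by
      intro f
      rw [Finset.card_filter]
      push_cast
      rfl
    simp only [this]
    rw [Finset.sum_comm]
    refine Finset.sum_congr rfl (fun i _ => ?_)
    rw [← hcv (A i), Finset.card_filter]
    push_cast
    rfl
  rw [hs1, hs2] at hsum
  have hcardf : ((univ : Finset (M → Fin (q + 1))).card : ℝ) = ((q : ℝ) + 1) ^ (Fintype.card M) := by
    rw [Finset.card_univ, Fintype.card_fun, Fintype.card_fin]
    push_cast
    rfl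
  rw [nsmul_eq_mul, hcardf] at hsum
  have h6 : ∑ i, ((q : ℝ) + 1) ^ (Fintype.card M) / ((q : ℝ) + 1) ^ (A i).card
      = ((q : ℝ) + 1) ^ (Fintype.card M) * ∑ i, (1 : ℝ) / ((q : ℝ) + 1) ^ (A i).card := by
    rw [Finset.mul_sum]
    refine Finset.sum_congr rfl (fun i _ => ?_)
    ring
  rw [h6] at hsum
  have hQ : (0 : ℝ) < ((q : ℝ) + 1) ^ (Fintype.card M) := by positivity
  have h7 : ((q : ℝ) + 1) ^ (Fintype.card M) * ∑ i, (1 : ℝ) / ((q : ℝ) + 1) ^ (A i).card
      ≤ ((q : ℝ) + 1) ^ (Fintype.card M) * K := mul_le_mul_of_nonneg_left hK hQ.le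
  have h8 : (E.card : ℝ) * (((q : ℝ) + 1) ^ (Fintype.card M) / ((q : ℝ) + 1))
      = ((q : ℝ) + 1) ^ (Fintype.card M) * ((E.card : ℝ) / ((q : ℝ) + 1)) := by ring
  rw [h8] at hsum
  linarith

/-- Deletion method: a graph on `n` vertices with at least `C(n,2)/(q+1) - |P|` edges containing no
member of the finite family `P`, if `n ^ k ≤ (q+1) ^ e` for each member with `k` vertices and
`e ≥ 1` edges. -/
lemma exists_free (n q : ℕ) (P : Finset (Σ k : ℕ, SimpleGraph (Fin k)))
    (hP1 : ∀ p ∈ P, n ^ p.1 ≤ (q + 1) ^ (p.2.edgeSet.ncard))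
    (hP2 : ∀ p ∈ P, p.2.edgeSet.Nonempty) :
    ∃ T : SimpleGraph (Fin n), (∀ p ∈ P, ¬ p.2.IsContained T) ∧
      ((n.choose 2 : ℕ) : ℝ) / ((q : ℝ) + 1) - (P.card : ℝ) ≤ (T.edgeSet.ncard : ℝ) := by
  classical
  -- the potential copies
  let A : (Σ p : P, (Fin p.1.1 ↪ Fin n)) → Finset (Sym2 (Fin n)) :=
    fun x => (x.1.1.2.edgeFinset).image (Sym2.map x.2)
  have hAcard : ∀ x, (A x).card = x.1.1.2.edgeSet.ncard := by
    intro x
    rw [Finset.card_image_of_injective _ (Sym2.map.injective x.2.injective),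
      Set.ncard_eq_toFinset_card']
    simp [SimpleGraph.edgeFinset]
  let E : Finset (Sym2 (Fin n)) := univ.filter (fun e => ¬ e.IsDiag)
  have hE : E.card = n.choose 2 := by
    have := Sym2.card_subtype_not_diag (α := Fin n)
    rw [Fintype.card_fin] at this
    rw [← this, Fintype.card_subtype]
  have hK : ∑ x, (1 : ℝ) / ((q : ℝ) + 1) ^ (A x).card ≤ (P.card : ℝ) := by
    rw [Fintype.sum_sigma]
    have h1 : ∀ p : P, ∑ y : (Fin p.1.1 ↪ Fin n), (1 : ℝ) / ((q : ℝ) + 1) ^ (A ⟨p, y⟩).card ≤ 1 := by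
      intro p
      simp only [hAcard]
      rw [Finset.sum_const, nsmul_eq_mul, mul_one_div, div_le_one (by positivity)]
      have h2 : (univ : Finset (Fin p.1.1 ↪ Fin n)).card ≤ n ^ p.1.1 := by
        rw [Finset.card_univ, Fintype.card_embedding_eq, Fintype.card_fin, Fintype.card_fin]
        exact Nat.descFactorial_le_pow _ _
      have h3 := hP1 p.1 p.2
      calc ((univ : Finset (Fin p.1.1 ↪ Fin n)).card : ℝ) ≤ ((n ^ p.1.1 : ℕ) : ℝ) := by
            exact_mod_cast h2
        _ ≤ (((q + 1) ^ (p.1.2.edgeSet.ncard) : ℕ) : ℝ) := by exact_mod_cast h3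
        _ = _ := by push_cast; rfl
    calc ∑ p : P, ∑ y : (Fin p.1.1 ↪ Fin n), (1 : ℝ) / ((q : ℝ) + 1) ^ (A ⟨p, y⟩).card
        ≤ ∑ p : P, (1 : ℝ) := Finset.sum_le_sum (fun p _ => h1 p)
      _ = (P.card : ℝ) := by simp
  obtain ⟨f, hf⟩ := exists_fun (Sym2 (Fin n)) q E _ A _ hK
  rw [hE] at hf
  let Bad := univ.filter (fun x => ∀ a ∈ A x, f a = 0)
  have hAne : ∀ x, (A x).Nonempty := by
    intro x
    obtain ⟨e, he⟩ := hP2 x.1.1 x.1.2
    exact ⟨Sym2.map x.2 e, Finset.mem_image_of_mem _ (by simpa using he)⟩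
  let ch : (Σ p : P, (Fin p.1.1 ↪ Fin n)) → Sym2 (Fin n) := fun x => (hAne x).choose
  have hch : ∀ x, ch x ∈ A x := fun x => (hAne x).choose_spec
  let D : Finset (Sym2 (Fin n)) := Bad.image ch
  refine ⟨SimpleGraph.fromEdgeSet {e | f e = 0 ∧ e ∉ D}, ?_, ?_⟩
  · intro p hp hcont
    obtain ⟨φ⟩ := hcont
    let x : (Σ p : P, (Fin p.1.1 ↪ Fin n)) := ⟨⟨p, hp⟩, ⟨φ, φ.injective⟩⟩
    have hx : ∀ a ∈ A x, f a = 0 ∧ a ∉ D := by
      intro a ha
      obtain ⟨e, he, rfl⟩ := Finset.mem_image.mp ha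
      rw [SimpleGraph.mem_edgeFinset] at he
      induction e using Sym2.ind with
      | _ u v =>
        have h1 := φ.toHom.map_adj he
        rw [SimpleGraph.fromEdgeSet_adj] at h1
        exact h1.1
    have hbad : x ∈ Bad := by
      simp only [Bad, mem_filter, mem_univ, true_and]
      exact fun a ha => (hx a ha).1
    exact (hx (ch x) (hch x)).2 (Finset.mem_image_of_mem _ hbad)
  · have h1 : (SimpleGraph.fromEdgeSet {e | f e = 0 ∧ e ∉ D}).edgeSet
        = (((E.filter (fun e => f e = 0)) \ D : Finset (Sym2 (Fin n))) : Set (Sym2 (Fin n))) := by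
      rw [SimpleGraph.edgeSet_fromEdgeSet]
      ext e
      simp only [Set.mem_diff, Set.mem_setOf_eq, Finset.coe_sdiff, Finset.coe_filter, E,
        Finset.mem_filter, Finset.mem_univ, true_and, Finset.mem_coe]
      tauto
    rw [h1, Set.ncard_coe_finset]
    have h2 : (E.filter (fun e => f e = 0)).card - Bad.card ≤
        ((E.filter (fun e => f e = 0)) \ D).card := by
      have h3 := Finset.le_card_sdiff D (E.filter (fun e => f e = 0))
      have h4 : D.card ≤ Bad.card := Finset.card_image_le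
      omega
    have h5 : ((E.filter (fun e => f e = 0)).card : ℝ) - (Bad.card : ℝ) ≤
        (((E.filter (fun e => f e = 0)) \ D).card : ℝ) := by
      have : (E.filter (fun e => f e = 0)).card ≤
        ((E.filter (fun e => f e = 0)) \ D).card + Bad.card := by omega
      have : ((E.filter (fun e => f e = 0)).card : ℝ) ≤
        (((E.filter (fun e => f e = 0)) \ D).card : ℝ) + (Bad.card : ℝ) := by exact_mod_cast this
      linarith
    exact hf.trans h5

end Deletion

end Pool.Agent.Lib.MP_8888ff_co
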