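import Pool.Agent.Lib.MP_8888ff_co.Deletion

set_option autoImplicit false

namespace Pool.Agent.Lib.MP_8888ff_co

open SimpleGraph Finset

lemma finite_small (s : ℕ) : {p : Σ k : ℕ, SimpleGraph (Fin k) | p.1 ≤ s}.Finite := by
  have h : {p : Σ k : ℕ, SimpleGraph (Fin k) | p.1 ≤ s} ⊆
      Set.range (fun x : (Σ k : Fin (s + 1), SimpleGraph (Fin k.1)) =>
        (⟨x.1.1, x.2⟩ : Σ k : ℕ, SimpleGraph (Fin k))) := by
    rintro ⟨k, G⟩ hk
    have hk' : k ≤ s := hk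
    exact ⟨⟨⟨k, by omega⟩, G⟩, rfl⟩
  exact (Set.finite_range _).subset h

lemma two_mul_edges (k D : ℕ) (G : SimpleGraph (Fin k)) (hG : ∀ v, D ≤ (G.neighborSet v).ncard) :
    D * k ≤ 2 * G.edgeSet.ncard := by
  classical
  have h1 := G.sum_degrees_eq_twice_card_edges
  have h2 : G.edgeSet.ncard = G.edgeFinset.card := by
    rw [Set.ncard_eq_toFinset_card']
    simp [SimpleGraph.edgeFinset]
  rw [h2, ← h1]
  calc D * k = ∑ _v : Fin k, D := by simp [mul_comm]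
    _ ≤ ∑ v : Fin k, G.degree v := by
        refine Finset.sum_le_sum (fun v _ => ?_)
        have h3 := hG v
        rwa [Set.ncard_eq_toFinset_card', ← SimpleGraph.neighborFinset_def] at h3

/-- For `n` large there is a graph on `n` vertices with at least `n ^ (2 - 2/D) / 8` edges
containing no graph with at most `s` vertices and all degrees at least `D`. -/
lemma exists_dense (D s : ℕ) (hD : 2 ≤ D) : ∃ N0 : ℕ, ∀ n ≥ N0, ∃ T : SimpleGraph (Fin n),
    (∀ p : Σ k : ℕ, SimpleGraph (Fin k), 0 < p.1 → p.1 ≤ s →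
      (∀ v, D ≤ (p.2.neighborSet v).ncard) → ¬ p.2.IsContained T) ∧
    (n : ℝ) ^ (2 - 2 / (D : ℝ)) / 8 ≤ (T.edgeSet.ncard : ℝ) := by
  classical
  let P := (finite_small s).toFinset.filter
    (fun p => 0 < p.1 ∧ ∀ v, D ≤ (p.2.neighborSet v).ncard)
  refine ⟨8 * P.card + 2, fun n hn => ?_⟩
  have hDpos : (0 : ℝ) < (D : ℝ) := by
    have : 0 < D := by omega
    exact_mod_cast this
  have hD2 : (2 : ℝ) ≤ (D : ℝ) := by exact_mod_cast hD
  have hn1 : (1 : ℝ) ≤ (n : ℝ) := by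
    have : 1 ≤ n := by omega
    exact_mod_cast this
  have hn0 : (0 : ℝ) < (n : ℝ) := by linarith
  set x : ℝ := (n : ℝ) ^ (2 / (D : ℝ)) with hx
  have hx1 : 1 ≤ x := Real.one_le_rpow hn1 (by positivity)
  have hxn : x ≤ (n : ℝ) := by
    calc x ≤ (n : ℝ) ^ (1 : ℝ) := by
          apply Real.rpow_le_rpow_of_exponent_le hn1
          rw [div_le_one hDpos]
          exact hD2
      _ = n := Real.rpow_one _
  have hxD : x ^ D = (n : ℝ) ^ 2 := by
    rw [hx, ← Real.rpow_natCast, ← Real.rpow_mul hn0.le]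
    rw [show 2 / (D : ℝ) * ((D : ℕ) : ℝ) = ((2 : ℕ) : ℝ) by
      push_cast
      field_simp]
    rw [Real.rpow_natCast]
  set q := ⌊x⌋₊ with hq
  have hq1 : x < (q : ℝ) + 1 := Nat.lt_floor_add_one x
  have hq2 : (q : ℝ) + 1 ≤ 2 * x := by
    have := Nat.floor_le (by linarith : (0 : ℝ) ≤ x)
    linarith
  have hqD : n ^ 2 ≤ (q + 1) ^ D := by
    have h1 : (n : ℝ) ^ 2 ≤ ((q : ℝ) + 1) ^ D := by
      rw [← hxD]
      exact pow_le_pow_left₀ (by linarith) hq1.le D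
    exact_mod_cast h1
  have hmem : ∀ p ∈ P, p.1 ≤ s ∧ 0 < p.1 ∧ ∀ v, D ≤ (p.2.neighborSet v).ncard := by
    intro p hp
    simp only [P, mem_filter, Set.Finite.mem_toFinset] at hp
    exact ⟨hp.1, hp.2⟩
  obtain ⟨T, hT1, hT2⟩ := exists_free n q P (by
    intro p hp
    obtain ⟨-, h0, hdeg⟩ := hmem p hp
    have h2 := two_mul_edges p.1 D p.2 hdeg
    have h3 : (n ^ p.1) ^ 2 ≤ ((q + 1) ^ (p.2.edgeSet.ncard)) ^ 2 := by
      calc (n ^ p.1) ^ 2 = (n ^ 2) ^ p.1 := by rw [← pow_mul, ← pow_mul, mul_comm]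
        _ ≤ ((q + 1) ^ D) ^ p.1 := Nat.pow_le_pow_left hqD _
        _ = (q + 1) ^ (D * p.1) := by rw [← pow_mul]
        _ ≤ (q + 1) ^ (2 * p.2.edgeSet.ncard) := Nat.pow_le_pow_right (by omega) h2
        _ = ((q + 1) ^ (p.2.edgeSet.ncard)) ^ 2 := by rw [← pow_mul, mul_comm]
    exact (Nat.pow_le_pow_iff_left (by norm_num)).mp h3) (by
    intro p hp
    obtain ⟨-, h0, hdeg⟩ := hmem p hp
    have h2 := two_mul_edges p.1 D p.2 hdeg
    have h3 : 0 < p.2.edgeSet.ncard := by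
      have : 0 < D * p.1 := by positivity
      omega
    exact (Set.ncard_pos).mp h3)
  refine ⟨T, ?_, ?_⟩
  · intro p h0 hs hdeg
    apply hT1
    simp only [P, mem_filter, Set.Finite.mem_toFinset]
    exact ⟨hs, h0, hdeg⟩
  · refine le_trans ?_ hT2
    have h1 : (n : ℝ) ^ (2 - 2 / (D : ℝ)) = (n : ℝ) ^ 2 / x := by
      rw [Real.rpow_sub hn0, hx]
      norm_num
    have h2 : ((n.choose 2 : ℕ) : ℝ) = (n : ℝ) * ((n : ℝ) - 1) / 2 := Nat.cast_choose_two ℝ n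
    rw [h1, h2]
    have hK : (8 * (P.card : ℝ) + 2) ≤ (n : ℝ) := by exact_mod_cast hn
    have hxpos : 0 < x := by linarith
    have h3 : (n : ℝ) * ((n : ℝ) - 1) / 2 / (2 * x) ≤ (n : ℝ) * ((n : ℝ) - 1) / 2 / ((q : ℝ) + 1) := by
      apply div_le_div_of_nonneg_left _ (by linarith) hq2
      have : 0 ≤ (n : ℝ) * ((n : ℝ) - 1) := mul_nonneg (by linarith) (by linarith)
      linarith
    have h4 : (P.card : ℝ) ≤ (n : ℝ) * ((n : ℝ) - 2) / (8 * x) := by
      rw [le_div_iff₀ (by positivity)]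
      have h5 : 8 * (P.card : ℝ) ≤ (n : ℝ) - 2 := by linarith
      have h6 : (0 : ℝ) ≤ (P.card : ℝ) := by positivity
      nlinarith [mul_le_mul h5 hxn (by linarith) (by linarith)]
    have h7 : (n : ℝ) ^ 2 / x / 8 = (n : ℝ) * ((n : ℝ) - 1) / 2 / (2 * x)
        - (n : ℝ) * ((n : ℝ) - 2) / (8 * x) := by
      field_simp
      ring
    rw [h7]
    linarith

end Pool.Agent.Lib.MP_8888ff_co
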