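import Mathlib

set_option autoImplicit false

namespace Pool.Agent.Lib.MP_8888ff_co

open SimpleGraph

variable {V : Type*}

/-- If adding the edge `uv` to `T` creates a cycle through `uv`, then `T` has a shorter walk
from `u` to `v`. -/
lemma exists_walk_of_cycle [DecidableEq V] (T : SimpleGraph V) {u v : V} (huv : u ≠ v) {a : V}
    (c : (T ⊔ edge u v).Walk a a) (hc : c.IsCycle) (he : s(u, v) ∈ c.edges) :
    ∃ p : T.Walk u v, p.length < c.length := by
  have hu : u ∈ c.support := c.fst_mem_support_of_mem_edges he
  have hc' : (c.rotate u hu).IsCycle := by simpa using hc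
  have hlen : (c.rotate u hu).length = c.length := by simp
  have he' : s(u, v) ∈ (c.rotate u hu).edges := by
    rwa [(c.rotate_edges u hu).mem_iff]
  rw [← hlen]
  generalize c.rotate u hu = c' at hc' he'
  cases c' with
  | nil => simp at he'
  | @cons _ x _ h p =>
    rw [Walk.cons_isCycle_iff] at hc'
    obtain ⟨hp, hnot⟩ := hc'
    have key : ∀ {y z : V} (q : (T ⊔ edge u v).Walk y z), s(u, v) ∉ q.edges →
        ∀ e ∈ q.edges, e ∈ T.edgeSet := by
      intro y z q hq e heq
      have h1 := q.edges_subset_edgeSet heq
      rw [edgeSet_sup, edgeSet_edge_of_ne huv] at h1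
      rcases h1 with h1 | h1
      · exact h1
      · rw [Set.mem_singleton_iff] at h1
        subst h1
        exact absurd heq hq
    rw [Walk.edges_cons, List.mem_cons] at he'
    rcases he' with he' | he'
    · have hxv : x = v := by
        rw [Sym2.eq_iff] at he'
        rcases he' with ⟨_, h2⟩ | ⟨h1, h2⟩
        · exact h2.symm
        · exact absurd h2.symm huv
      subst hxv
      refine ⟨(p.transfer T (key p hnot)).reverse, ?_⟩
      simp
    · have hv : v ∈ p.support := p.snd_mem_support_of_mem_edges he'
      have hq1 : u ∉ (p.takeUntil v hv).support :=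
        Walk.endpoint_notMem_support_takeUntil hp hv huv
      have hq2 : s(u, v) ∉ (Walk.cons h (p.takeUntil v hv)).edges := by
        rw [Walk.edges_cons, List.mem_cons]
        rintro (h3 | h3)
        · exact hnot (h3 ▸ he')
        · exact hq1 ((p.takeUntil v hv).fst_mem_support_of_mem_edges h3)
      refine ⟨(Walk.cons h (p.takeUntil v hv)).transfer T (key _ hq2), ?_⟩
      have hlt : (p.takeUntil v hv).length < p.length := by
        have := Walk.length_takeUntil_lt_length hv huv.symm
        exact this
      simp only [Walk.length_transfer, Walk.length_cons]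
      omega

/-- The vertices reachable from `u` by a walk of length at most `g`. -/
lemma card_ball_le [Fintype V] [DecidableEq V] (T : SimpleGraph V) [DecidableRel T.Adj] (D : ℕ)
    (hD : ∀ v, T.degree v ≤ D) (u : V) (g : ℕ) :
    ∃ B : Finset V, B.card ≤ (D + 1) ^ g ∧ ∀ v (p : T.Walk u v), p.length ≤ g → v ∈ B := by
  induction g with
  | zero =>
    refine ⟨{u}, by simp, ?_⟩
    intro v p hp
    have : p.length = 0 := by omega
    have := Walk.eq_of_length_eq_zero this
    simp [this]
  | succ g ih =>
    obtain ⟨B, hB, hw⟩ := ih
    refine ⟨B.biUnion (fun y => insert y (T.neighborFinset y)), ?_, ?_⟩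
    · calc (B.biUnion (fun y => insert y (T.neighborFinset y))).card
          ≤ B.card * (D + 1) := by
            apply Finset.card_biUnion_le_card_mul
            intro y _
            refine (Finset.card_insert_le _ _).trans ?_
            have := hD y
            rw [card_neighborFinset_eq_degree]
            omega
        _ ≤ (D + 1) ^ g * (D + 1) := Nat.mul_le_mul_right _ hB
        _ = (D + 1) ^ (g + 1) := by ring
    · intro v p hp
      rw [Finset.mem_biUnion]
      by_cases h0 : p.length ≤ g
      · exact ⟨v, hw v p h0, by simp⟩
      · have hn : ¬ p.Nil := by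
          intro hnil
          have := Walk.length_eq_zero_iff.mpr hnil
          omega
        refine ⟨p.penultimate, hw _ p.dropLast ?_, ?_⟩
        · have h1 := Walk.length_dropLast_add_one hn
          omega
        · have := p.adj_penultimate hn
          simp [this]

/-- High girth graphs with many edges. -/
theorem exists_highGirth (k g : ℕ) : ∃ N0 : ℕ, ∀ n ≥ N0, ∃ T : SimpleGraph (Fin n),
    (∀ (a : Fin n) (c : T.Walk a a), c.IsCycle → g < c.length) ∧ k * n ≤ T.edgeSet.ncard := by
  classical
  set D := 4 * k with hDdef
  refine ⟨2 * (D + 1) ^ (g + 1), ?_⟩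
  intro n hn
  let P : SimpleGraph (Fin n) → Prop := fun T =>
    (∀ v, T.degree v ≤ D) ∧ (∀ (a : Fin n) (c : T.Walk a a), c.IsCycle → g < c.length)
  have hP0 : P ⊥ := by
    refine ⟨fun v => by simp, fun a c hc => ?_⟩
    exact absurd hc (isAcyclic_bot c)
  obtain ⟨T, hT⟩ : ∃ T, Maximal P T := by
    have hfin : Finite (SimpleGraph (Fin n)) := inferInstance
    obtain ⟨T, -, hT⟩ := (Set.toFinite {T | P T}).exists_le_maximal (a := ⊥) hP0
    exact ⟨T, hT⟩
  refine ⟨T, hT.prop.2, ?_⟩
  -- low degree vertices are close to each other
  have hclose : ∀ u v : Fin n, T.degree u < D → T.degree v < D →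
      ∃ p : T.Walk u v, p.length ≤ g + 1 := by
    intro u v hu hv
    by_contra hcon
    push Not at hcon
    have huv : u ≠ v := by
      rintro rfl
      have := hcon Walk.nil
      simp at this
    have hadj : ¬ T.Adj u v := by
      intro h
      have := hcon (Walk.cons h Walk.nil)
      simp at this
    have hlt : T < T ⊔ edge u v := lt_sup_edge _ _ _ huv hadj
    have hPT' : P (T ⊔ edge u v) := by
      constructor
      · intro w
        have hsub : (T ⊔ edge u v).neighborFinset w ⊆
            T.neighborFinset w ∪ (if w = u then {v} else if w = v then {u} else ∅) := by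
          intro y hy
          rw [mem_neighborFinset, sup_adj, edge_adj] at hy
          rw [Finset.mem_union, mem_neighborFinset]
          rcases hy with hy | ⟨⟨h1, h2⟩ | ⟨h1, h2⟩, h3⟩
          · exact Or.inl hy
          · right; simp [h1, h2]
          · right
            subst h1 h2
            simp [huv.symm]
        have hc := Finset.card_le_card hsub
        have hdeg : ((T ⊔ edge u v).neighborFinset w).card = (T ⊔ edge u v).degree w :=
          card_neighborFinset_eq_degree _ _
        have hdeg' : (T.neighborFinset w).card = T.degree w :=
          card_neighborFinset_eq_degree _ _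
        have h2 := (Finset.card_union_le (T.neighborFinset w)
          (if w = u then {v} else if w = v then {u} else ∅))
        have h3 := hT.prop.1 w
        have goal' : ((T ⊔ edge u v).neighborFinset w).card ≤ D := by
          refine hc.trans (h2.trans ?_)
          by_cases h4 : w = u
          · subst h4
            rw [if_pos rfl, Finset.card_singleton]
            omega
          · by_cases h5 : w = v
            · subst h5
              rw [if_neg h4, if_pos rfl, Finset.card_singleton]
              omega
            · rw [if_neg h4, if_neg h5, Finset.card_empty]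
              omega
        rw [hdeg] at goal'
        convert goal'
      · intro a c hc
        by_cases he : s(u, v) ∈ c.edges
        · obtain ⟨p, hp⟩ := exists_walk_of_cycle T huv c hc he
          have := hcon p
          omega
        · have key : ∀ e ∈ c.edges, e ∈ T.edgeSet := by
            intro e heq
            have h1 := c.edges_subset_edgeSet heq
            rw [edgeSet_sup, edgeSet_edge_of_ne huv] at h1
            rcases h1 with h1 | h1
            · exact h1
            · rw [Set.mem_singleton_iff] at h1
              subst h1
              exact absurd heq he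
          have h2 := hT.prop.2 a (c.transfer T key) (hc.transfer key)
          simpa using h2
    exact hT.not_prop_of_gt hlt hPT'
  -- number of low degree vertices
  have hlow : (Finset.univ.filter (fun v => T.degree v < D)).card ≤ (D + 1) ^ (g + 1) := by
    by_cases hne : (Finset.univ.filter (fun v => T.degree v < D)).Nonempty
    · obtain ⟨u, hu⟩ := hne
      rw [Finset.mem_filter] at hu
      obtain ⟨B, hB, hw⟩ := card_ball_le T D hT.prop.1 u (g + 1)
      refine (Finset.card_le_card ?_).trans hB
      intro v hv
      rw [Finset.mem_filter] at hv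
      obtain ⟨p, hp⟩ := hclose u v hu.2 hv.2
      exact hw v p hp
    · rw [Finset.not_nonempty_iff_eq_empty] at hne
      rw [hne]
      simp
  have hsum : ∑ v, T.degree v = 2 * T.edgeFinset.card := T.sum_degrees_eq_twice_card_edges
  have hge : D * (Finset.univ.filter (fun v => ¬ T.degree v < D)).card ≤ ∑ v, T.degree v := by
    calc D * (Finset.univ.filter (fun v => ¬ T.degree v < D)).card
        = ∑ v ∈ Finset.univ.filter (fun v => ¬ T.degree v < D), D := by
          rw [Finset.sum_const, smul_eq_mul, mul_comm]
      _ ≤ ∑ v ∈ Finset.univ.filter (fun v => ¬ T.degree v < D), T.degree v := by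
          apply Finset.sum_le_sum
          intro v hv
          rw [Finset.mem_filter] at hv
          omega
      _ ≤ ∑ v, T.degree v := by
          apply Finset.sum_le_sum_of_subset
          exact Finset.filter_subset _ _
  have hcard : (Finset.univ.filter (fun v => T.degree v < D)).card +
      (Finset.univ.filter (fun v => ¬ T.degree v < D)).card = n := by
    rw [Finset.card_filter_add_card_filter_not]
    simp
  have hncard : T.edgeSet.ncard = T.edgeFinset.card := by
    rw [← coe_edgeFinset, Set.ncard_coe_finset]
  rw [hncard]
  set L := (Finset.univ.filter (fun v => T.degree v < D)).card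
  set Hc := (Finset.univ.filter (fun v => ¬ T.degree v < D)).card
  have h1 : n ≤ 2 * Hc := by omega
  have h2 : D * n ≤ D * (2 * Hc) := Nat.mul_le_mul_left _ h1
  have h3 : D * (2 * Hc) = 2 * (D * Hc) := by ring
  have h4 : 4 * (k * n) ≤ 4 * T.edgeFinset.card := by
    calc 4 * (k * n) = D * n := by rw [hDdef]; ring
      _ ≤ 2 * (D * Hc) := by rw [← h3]; exact h2
      _ ≤ 2 * ∑ v, T.degree v := Nat.mul_le_mul_left _ hge
      _ = 4 * T.edgeFinset.card := by rw [hsum]; ring
  omega

/-- An acyclic graph on a nonempty finite vertex type has a vertex of degree at most one. -/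
lemma exists_degree_le_one [Fintype V] [Nonempty V] (H : SimpleGraph V) (hH : H.IsAcyclic) :
    ∃ v, (H.neighborSet v).ncard ≤ 1 := by
  classical
  obtain ⟨T, hle, hT⟩ := SimpleGraph.exists_maximal_isAcyclic_of_le_isAcyclic (G := ⊤) le_top hH
  have hT' : Maximal IsAcyclic T := by
    refine ⟨hT.prop.2, fun T' hT' hle' => hT.le_of_ge ⟨le_top, hT'⟩ hle'⟩
  rw [maximal_isAcyclic_iff_isTree] at hT'
  rcases subsingleton_or_nontrivial V with hs | hn
  · obtain ⟨v⟩ := ‹Nonempty V›
    refine ⟨v, ?_⟩
    have : H.neighborSet v = ∅ := by
      ext y
      simp only [mem_neighborSet, Set.mem_empty_iff_false, iff_false]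
      rw [Subsingleton.elim y v]
      exact H.irrefl
    rw [this]
    simp
  · obtain ⟨v, hv⟩ := hT'.exists_vert_degree_one_of_nontrivial
    refine ⟨v, ?_⟩
    have h1 : H.neighborSet v ⊆ (T.neighborFinset v : Set V) := by
      intro y hy
      simp only [coe_neighborFinset, mem_neighborSet]
      exact hle hy
    refine (Set.ncard_le_ncard h1 (Finset.finite_toSet _)).trans ?_
    rw [Set.ncard_coe_finset, card_neighborFinset_eq_degree, hv]

end Pool.Agent.Lib.MP_8888ff_co
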