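import Mathlib

set_option autoImplicit false

/-! For all `d` and `g` there is a finite bipartite `d`-regular graph all of whose cycles are longer
than `g`: permutations of the ball of radius `g` in the `d`-regular tree. -/

namespace Pool.Agent.Lib.MP_8888ff_co.RegGirth

open SimpleGraph

/-- Reduced words of length at most `g` over `d` letters. -/
def Word (d g : ℕ) : Type := {w : List (Fin d) // w.length ≤ g ∧ w.IsChain (· ≠ ·)}

instance (d g : ℕ) : Finite (Word d g) := by
  have h : Set.Finite {w : List (Fin d) | w.length ≤ g ∧ w.IsChain (· ≠ ·)} :=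
    (List.finite_length_le (Fin d) g).subset (fun w hw => hw.1)
  exact h.to_subtype

variable {d g : ℕ}

/-- One step along the letter `i`, on lists. -/
def stepL (g : ℕ) (i : Fin d) : List (Fin d) → List (Fin d)
  | [] => if 0 < g then [i] else []
  | j :: t => if j = i then t else if t.length + 1 < g then i :: j :: t else j :: t

lemma stepL_ok (i : Fin d) (w : List (Fin d)) (h : w.length ≤ g ∧ w.IsChain (· ≠ ·)) :
    (stepL g i w).length ≤ g ∧ (stepL g i w).IsChain (· ≠ ·) := by
  cases w with
  | nil =>
    by_cases h0 : 0 < g
    · have e1 : stepL g i [] = [i] := by simp [stepL, h0]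
      rw [e1]
      exact ⟨by simp only [List.length_cons, List.length_nil]; omega, by simp⟩
    · have e1 : stepL g i [] = [] := by simp [stepL, h0]
      rw [e1]
      exact ⟨by simp, by simp⟩
  | cons j t =>
    by_cases h1 : j = i
    · have e1 : stepL g i (j :: t) = t := by simp [stepL, h1]
      rw [e1]
      exact ⟨by have := h.1; simp at this; omega, h.2.tail⟩
    · by_cases h2 : t.length + 1 < g
      · have e1 : stepL g i (j :: t) = i :: j :: t := by simp [stepL, h1, h2]
        rw [e1]
        refine ⟨by simp only [List.length_cons]; omega, ?_⟩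
        rw [List.isChain_cons_cons]
        exact ⟨fun h3 => h1 h3.symm, h.2⟩
      · have e1 : stepL g i (j :: t) = j :: t := by simp [stepL, h1, h2]
        rw [e1]
        exact h

lemma stepL_invol (i : Fin d) (w : List (Fin d)) (h : w.length ≤ g ∧ w.IsChain (· ≠ ·)) :
    stepL g i (stepL g i w) = w := by
  cases w with
  | nil =>
    by_cases h0 : 0 < g
    · simp [stepL, h0]
    · simp [stepL, h0]
  | cons j t =>
    by_cases h1 : j = i
    · subst h1
      have e1 : stepL g j (j :: t) = t := by simp [stepL]
      rw [e1]
      cases t with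
      | nil =>
        have : 0 < g := by have := h.1; simp at this; omega
        simp [stepL, this]
      | cons k s =>
        have hk : k ≠ j := by
          have := h.2
          rw [List.isChain_cons_cons] at this
          exact fun h3 => this.1 h3.symm
        have hl : s.length + 1 < g := by have := h.1; simp at this; omega
        simp [stepL, hk, hl]
    · by_cases h2 : t.length + 1 < g
      · have e1 : stepL g i (j :: t) = i :: j :: t := by simp [stepL, h1, h2]
        rw [e1]
        simp [stepL]
      · have e1 : stepL g i (j :: t) = j :: t := by simp [stepL, h1, h2]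
        rw [e1, e1]

/-- The involution attached to a letter. -/
def perm (g : ℕ) (i : Fin d) : Equiv.Perm (Word d g) :=
  Function.Involutive.toPerm (fun w => ⟨stepL g i w.1, stepL_ok i w.1 w.2⟩)
    (fun w => Subtype.ext (stepL_invol i w.1 w.2))

lemma perm_val (i : Fin d) (w : Word d g) : (perm g i w).1 = stepL g i w.1 := rfl

lemma perm_mul_self (i : Fin d) : perm g i * perm g i = 1 := by
  ext w
  exact Subtype.ext (stepL_invol i w.1 w.2)

lemma perm_push (i : Fin d) (w : Word d g) (hw : ∀ j, w.1.head? = some j → j ≠ i)
    (hl : w.1.length < g) : (perm g i w).1 = i :: w.1 := by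
  rw [perm_val]
  obtain ⟨w, hw2⟩ := w
  cases w with
  | nil => simp only [List.length_nil] at hl; simp [stepL, hl]
  | cons j t =>
    have h1 : j ≠ i := hw j (by simp)
    simp only [List.length_cons] at hl
    simp [stepL, h1, hl]

/-- The empty word. -/
def nilW (d g : ℕ) : Word d g := ⟨[], by simp, by simp⟩

lemma perm_injective (hg : 0 < g) : Function.Injective (perm (d := d) g) := by
  intro i j hij
  have h1 := perm_push (g := g) i (nilW d g) (by simp [nilW]) (by simpa [nilW] using hg)
  have h2 := perm_push (g := g) j (nilW d g) (by simp [nilW]) (by simpa [nilW] using hg)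
  rw [hij, h2] at h1
  simpa using h1.symm

/-- The neighbour along the letter `i`. -/
def nb (i : Fin d) (x : Equiv.Perm (Word d g) × Bool) : Equiv.Perm (Word d g) × Bool :=
  (perm g i * x.1, !x.2)

lemma nb_nb (i : Fin d) (x : Equiv.Perm (Word d g) × Bool) : nb i (nb i x) = x := by
  unfold nb
  ext1
  · simp only
    rw [← mul_assoc, perm_mul_self, one_mul]
  · simp

/-- The graph. -/
def Gr (d g : ℕ) : SimpleGraph (Equiv.Perm (Word d g) × Bool) where
  Adj x y := ∃ i : Fin d, y = nb i x
  symm := ⟨fun x y ⟨i, hi⟩ => ⟨i, by rw [hi, nb_nb]⟩⟩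
  loopless := ⟨fun x ⟨i, hi⟩ => by
    have := congrArg Prod.snd hi
    simp [nb] at this⟩

lemma gr_deg (hg : 0 < g) (x : Equiv.Perm (Word d g) × Bool) :
    ((Gr d g).neighborSet x).ncard = d := by
  have h1 : (Gr d g).neighborSet x = Set.range (fun i : Fin d => nb i x) := by
    ext y
    constructor
    · rintro ⟨i, hi⟩
      exact ⟨i, hi.symm⟩
    · rintro ⟨i, hi⟩
      exact ⟨i, hi.symm⟩
  have hinj : Function.Injective (fun i : Fin d => nb i x) := by
    intro i j hij
    have h2 := congrArg Prod.fst hij
    simp only [nb] at h2
    exact perm_injective hg (mul_right_cancel h2)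
  rw [h1, ← Set.image_univ, Set.ncard_image_of_injective _ hinj, Set.ncard_univ]
  simp

lemma walk_len {x y : Equiv.Perm (Word d g) × Bool} (p : (Gr d g).Walk x y) (hp : p.IsPath) :
    ∀ w : Word d g, (∀ j, w.1.head? = some j → s(x, nb j x) ∉ p.edges) →
      w.1.length + p.length ≤ g →
      ((y.1 * x.1⁻¹) w).1.length = w.1.length + p.length := by
  induction p with
  | nil =>
    intro w _ _
    simp
  | @cons x x' y h p ih =>
    intro w hw hl
    have h' : ∃ i : Fin d, x' = nb i x := h
    obtain ⟨i, hi⟩ := h'
    rw [Walk.cons_isPath_iff] at hp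
    simp only [Walk.length_cons] at hl
    have hne : ∀ j, w.1.head? = some j → j ≠ i := by
      intro j hj hji
      subst hji
      apply hw j hj
      rw [Walk.edges_cons, ← hi]
      simp
    have hpush := perm_push (g := g) i w hne (by omega)
    have hx : x'.1 * x.1⁻¹ = perm g i := by
      rw [hi]
      simp [nb]
    have hmul : y.1 * x.1⁻¹ = (y.1 * x'.1⁻¹) * perm g i := by
      rw [← hx]
      group
    rw [hmul, Equiv.Perm.mul_apply]
    have := ih hp.1 (perm g i w) (by
      intro j hj
      rw [hpush] at hj
      simp only [List.head?_cons, Option.some.injEq] at hj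
      subst hj
      have hback : nb i x' = x := by rw [hi, nb_nb]
      rw [hback]
      intro hmem
      exact hp.2 (p.snd_mem_support_of_mem_edges hmem)) (by
      rw [hpush]
      simp only [List.length_cons]
      omega)
    rw [this, hpush]
    simp only [List.length_cons, Walk.length_cons]
    omega

lemma gr_cycle {a : Equiv.Perm (Word d g) × Bool} (c : (Gr d g).Walk a a) (hc : c.IsCycle) :
    g < c.length := by
  by_contra hle
  have h3 := hc.three_le_length
  cases c with
  | nil => simp at h3
  | @cons _ v _ h p =>
    rw [Walk.cons_isCycle_iff] at hc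
    have h' : ∃ i : Fin d, v = nb i a := h
    obtain ⟨i, hi⟩ := h'
    simp only [Walk.length_cons] at hle h3
    have hback : nb i v = a := by rw [hi, nb_nb]
    have hpush := perm_push (g := g) i (nilW d g) (by simp [nilW]) (by simp only [nilW, List.length_nil]; omega)
    have key := walk_len p hc.1 (perm g i (nilW d g)) (by
      intro j hj
      rw [hpush] at hj
      simp only [List.head?_cons, Option.some.injEq] at hj
      subst hj
      rw [hback]
      intro hmem
      apply hc.2
      rw [Sym2.eq_swap]
      exact hmem) (by
      rw [hpush]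
      simp only [nilW, List.length_cons, List.length_nil]
      omega)
    have hx : a.1 * v.1⁻¹ = perm g i := by
      rw [← hback]
      simp [nb]
    rw [hx, ← Equiv.Perm.mul_apply, perm_mul_self, hpush] at key
    rw [Equiv.Perm.one_apply] at key
    simp only [nilW, List.length_cons, List.length_nil] at key
    omega

lemma gr_even {x y : Equiv.Perm (Word d g) × Bool} (p : (Gr d g).Walk x y) :
    (Even p.length ↔ x.2 = y.2) := by
  induction p with
  | nil => simp
  | @cons x x' y h p ih =>
    have h' : ∃ i : Fin d, x' = nb i x := h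
    obtain ⟨i, hi⟩ := h'
    have h2 : x'.2 = !x.2 := by rw [hi]; rfl
    rw [Walk.length_cons, Nat.even_add_one, ih, h2]
    cases x.2 <;> cases y.2 <;> simp

/-- For all `d`, `g` there is a finite `d`-regular graph with only even cycles, all longer than
`g`. -/
theorem exists_regular (d g : ℕ) : ∃ (n : ℕ) (G : SimpleGraph (Fin n)), 0 < n ∧
    (∀ v, (G.neighborSet v).ncard = d) ∧
    ∀ (a : Fin n) (c : G.Walk a a), c.IsCycle → g < c.length ∧ Even c.length := by
  classical
  have : Finite (Word d (g + 1)) := inferInstance
  letI : Fintype (Word d (g + 1)) := Fintype.ofFinite _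
  letI : DecidableEq (Word d (g + 1)) := Classical.decEq _
  let V := Equiv.Perm (Word d (g + 1)) × Bool
  let e : Gr d (g + 1) ≃g (Gr d (g + 1)).overFin (rfl : Fintype.card V = Fintype.card V) :=
    (Gr d (g + 1)).overFinIso rfl
  refine ⟨Fintype.card V, (Gr d (g + 1)).overFin rfl, ?_, ?_, ?_⟩
  · exact Fintype.card_pos
  · intro v
    have h1 := gr_deg (d := d) (g := g + 1) (by omega) (e.symm v)
    have h2 : ((Gr d (g + 1)).overFin (rfl : Fintype.card V = Fintype.card V)).neighborSet v =
        e '' ((Gr d (g + 1)).neighborSet (e.symm v)) := by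
      ext y
      simp only [mem_neighborSet, Set.mem_image]
      constructor
      · intro hy
        refine ⟨e.symm y, ?_, by simp⟩
        rw [← e.map_adj_iff]
        simpa using hy
      · rintro ⟨z, hz, rfl⟩
        rw [← e.map_adj_iff] at hz
        simpa using hz
    rw [h2, Set.ncard_image_of_injective _ e.injective, h1]
  · intro a c hc
    have h1 : (c.map e.symm.toHom).IsCycle := hc.map e.symm.injective
    have h2 := gr_cycle _ h1
    have h3 := gr_even (c.map e.symm.toHom)
    rw [Walk.length_map] at h2 h3
    exact ⟨by omega, h3.mpr rfl⟩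

/-- Handshake: a `2k`-regular graph on `n` vertices has `k n` edges. -/
lemma edges_of_regular (k n : ℕ) (T : SimpleGraph (Fin n))
    (hT : ∀ v, (T.neighborSet v).ncard = 2 * k) : T.edgeSet.ncard = k * n := by
  classical
  have h1 : ∀ v, T.degree v = 2 * k := by
    intro v
    rw [← hT v, ← card_neighborFinset_eq_degree, ← Set.ncard_coe_finset, coe_neighborFinset]
  have h2 : ∑ v, T.degree v = 2 * T.edgeFinset.card := T.sum_degrees_eq_twice_card_edges
  have h3 : ∑ v : Fin n, T.degree v = n * (2 * k) := by
    rw [Finset.sum_congr rfl (fun v _ => h1 v), Finset.sum_const, Finset.card_univ,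
      Fintype.card_fin, smul_eq_mul]
  have h4 : T.edgeSet.ncard = T.edgeFinset.card := by
    rw [← coe_edgeFinset, Set.ncard_coe_finset]
  rw [h4]
  have h5 : 2 * T.edgeFinset.card = 2 * (k * n) := by rw [← h2, h3]; ring
  omega

/-- An acyclic graph on a nonempty finite vertex type has a vertex of degree at most one. -/
lemma exists_degree_le_one {V : Type*} [Fintype V] [Nonempty V] (H : SimpleGraph V)
    (hH : H.IsAcyclic) : ∃ v, (H.neighborSet v).ncard ≤ 1 := by
  classical
  obtain ⟨T, hle, hT⟩ := SimpleGraph.exists_maximal_isAcyclic_of_le_isAcyclic (G := ⊤) le_top hH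
  have hT' : Maximal IsAcyclic T := by
    refine ⟨hT.prop.2, fun T' hT' hle' => hT.le_of_ge ⟨le_top, hT'⟩ hle'⟩
  rw [maximal_isAcyclic_iff_isTree] at hT'
  rcases subsingleton_or_nontrivial V with hs | hn
  · obtain ⟨v⟩ := ‹Nonempty V›
    refine ⟨v, ?_⟩
    have : H.neighborSet v = ∅ := by
      ext y
      simp only [mem_neighborSet, Set.mem_empty_iff_false, iff_false]
      rw [Subsingleton.elim y v]
      exact H.irrefl
    rw [this]
    simp
  · obtain ⟨v, hv⟩ := hT'.exists_vert_degree_one_of_nontrivial
    refine ⟨v, ?_⟩
    have h1 : H.neighborSet v ⊆ (T.neighborFinset v : Set V) := by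
      intro y hy
      simp only [coe_neighborFinset, mem_neighborSet]
      exact hle hy
    refine (Set.ncard_le_ncard h1 (Finset.finite_toSet _)).trans ?_
    rw [Set.ncard_coe_finset, card_neighborFinset_eq_degree, hv]

end Pool.Agent.Lib.MP_8888ff_co.RegGirth
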