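import Mathlib

set_option autoImplicit false

namespace Pool.Agent.Lib.MP_8888ff_co

open SimpleGraph

section Cayley

variable (r g : ℕ)

/-- Reduced words of length at most `g` over `Fin r`. -/
def Wd : Type := {w : List (Fin r) // w.length ≤ g ∧ w.IsChain (fun a b => a ≠ b)}

noncomputable instance : DecidableEq (Wd r g) := Classical.decEq _

instance : Finite (Wd r g) := by
  have h : ({l : List (Fin r) | l.length ≤ g}).Finite := List.finite_length_le (Fin r) g
  have : Finite {l : List (Fin r) | l.length ≤ g} := h
  exact Finite.of_injective (fun w : Wd r g => (⟨w.1, w.2.1⟩ : {l : List (Fin r) | l.length ≤ g}))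
    (fun a b hab => by
      have h1 := congrArg (fun z : {l : List (Fin r) | l.length ≤ g} => z.1) hab
      exact Subtype.ext h1)

noncomputable instance : Fintype (Wd r g) := Fintype.ofFinite _

variable {r g}

/-- the action of a letter on words -/
def sL (g : ℕ) (i : Fin r) (w : List (Fin r)) : List (Fin r) :=
  if w.head? = some i then w.tail else if w.length < g then i :: w else w

lemma sL_ok (i : Fin r) (w : List (Fin r)) (hw : w.length ≤ g ∧ w.IsChain (fun a b => a ≠ b)) :
    (sL g i w).length ≤ g ∧ (sL g i w).IsChain (fun a b => a ≠ b) := by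
  unfold sL
  split_ifs with h1 h2
  · refine ⟨?_, ?_⟩
    · rw [List.length_tail]; omega
    · exact hw.2.tail
  · refine ⟨by simp; omega, ?_⟩
    cases w with
    | nil => simp
    | cons j w' =>
      rw [List.isChain_cons_cons]
      refine ⟨?_, hw.2⟩
      intro hij
      apply h1
      simp [hij]
  · exact hw

lemma sL_sL (i : Fin r) (w : List (Fin r)) (hw : w.length ≤ g ∧ w.IsChain (fun a b => a ≠ b)) :
    sL g i (sL g i w) = w := by
  cases w with
  | nil =>
    unfold sL
    by_cases hg : 0 < g
    · simp [hg]
    · simp [hg]
  | cons j w' =>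
    by_cases hj : j = i
    · subst hj
      have h1 : sL g j (j :: w') = w' := by simp [sL]
      rw [h1]
      have h2 : ¬ w'.head? = some j := by
        intro h
        cases w' with
        | nil => simp at h
        | cons k w'' =>
          simp only [List.head?_cons, Option.some.injEq] at h
          have := hw.2
          rw [List.isChain_cons_cons] at this
          exact this.1 h.symm
      have h3 : w'.length < g := by
        have := hw.1
        simp at this
        omega
      simp [sL, h2, h3]
    · by_cases hl : (j :: w').length < g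
      · have h1 : sL g i (j :: w') = i :: j :: w' := by
          unfold sL
          simp only [List.head?_cons, Option.some.injEq, hj, if_false, hl, if_true]
        rw [h1]
        simp [sL]
      · have h1 : sL g i (j :: w') = j :: w' := by
          unfold sL
          simp only [List.head?_cons, Option.some.injEq, hj, if_false, hl]
        rw [h1, h1]

/-- the involution attached to a letter -/
def sI (i : Fin r) : Equiv.Perm (Wd r g) :=
  Function.Involutive.toPerm (fun w => ⟨sL g i w.1, sL_ok i w.1 w.2⟩)
    (fun w => Subtype.ext (sL_sL i w.1 w.2))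

lemma sI_apply (i : Fin r) (w : Wd r g) : ((sI i) w).1 = sL g i w.1 := rfl

lemma sI_mul_self (i : Fin r) : (sI i : Equiv.Perm (Wd r g)) * sI i = 1 := by
  ext1 w
  apply Subtype.ext
  show sL g i (sL g i w.1) = w.1
  exact sL_sL i w.1 w.2

/-- the empty word -/
def e0 : Wd r g := ⟨[], by simp⟩

lemma prod_apply (w : List (Fin r)) (hw : w.length ≤ g) (hc : w.IsChain (fun a b => a ≠ b)) :
    (((w.map (fun i => (sI i : Equiv.Perm (Wd r g)))).prod) e0).1 = w := by
  induction w with
  | nil => rfl
  | cons i w ih =>
    have h1 := ih (by simp at hw; omega) hc.tail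
    rw [List.map_cons, List.prod_cons, Equiv.Perm.mul_apply, sI_apply, h1]
    unfold sL
    have h2 : ¬ w.head? = some i := by
      intro h
      cases w with
      | nil => simp at h
      | cons k w'' =>
        simp only [List.head?_cons, Option.some.injEq] at h
        rw [List.isChain_cons_cons] at hc
        exact hc.1 h.symm
    have h3 : w.length < g := by
      simp at hw
      omega
    simp [h2, h3]

/-- The graph: right multiplication by the involutions. -/
def cay (r g : ℕ) : SimpleGraph (Equiv.Perm (Wd r g)) where
  Adj a b := a ≠ b ∧ ∃ i : Fin r, b = a * sI i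
  symm := by
    refine ⟨?_⟩
    rintro a b ⟨hne, i, rfl⟩
    exact ⟨hne.symm, i, by rw [mul_assoc, sI_mul_self, mul_one]⟩
  loopless := by
    refine ⟨?_⟩
    rintro a ⟨h, -⟩
    exact h rfl

lemma sI_inj (hg : 1 ≤ g) (i j : Fin r) (h : (sI i : Equiv.Perm (Wd r g)) = sI j) : i = j := by
  have h1 := prod_apply (g := g) [i] (by simpa using hg) (by simp)
  have h2 := prod_apply (g := g) [j] (by simpa using hg) (by simp)
  simp only [List.map_cons, List.map_nil, List.prod_cons, List.prod_nil, mul_one] at h1 h2
  rw [h] at h1
  rw [h1] at h2
  simpa using h2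

lemma sI_ne_one (hg : 1 ≤ g) (i : Fin r) : (sI i : Equiv.Perm (Wd r g)) ≠ 1 := by
  intro h
  have h1 := prod_apply (g := g) [i] (by simpa using hg) (by simp)
  simp only [List.map_cons, List.map_nil, List.prod_cons, List.prod_nil, mul_one] at h1
  rw [h] at h1
  have h2 : ((1 : Equiv.Perm (Wd r g)) e0).1 = [] := rfl
  rw [h2] at h1
  simp at h1

lemma cay_degree (hg : 1 ≤ g) (a : Equiv.Perm (Wd r g)) : ((cay r g).neighborSet a).ncard = r := by
  have h1 : (cay r g).neighborSet a = Set.range (fun i : Fin r => a * sI i) := by
    ext b
    simp only [mem_neighborSet, cay, Set.mem_range]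
    constructor
    · rintro ⟨-, i, hi⟩
      exact ⟨i, hi.symm⟩
    · rintro ⟨i, hi⟩
      refine ⟨?_, i, hi.symm⟩
      intro hab
      rw [← hi] at hab
      exact sI_ne_one hg i (by simpa using hab)
  rw [h1, ← Set.image_univ, Set.ncard_image_of_injective]
  · simp
  · intro i j hij
    exact sI_inj hg i j (by simpa using hij)

/-- A trail of length at most `g` is described by a reduced word. -/
lemma trail_word {a b : Equiv.Perm (Wd r g)} (p : (cay r g).Walk a b) (hp : p.IsTrail) :
    ∃ w : List (Fin r), w.length = p.length ∧ w.IsChain (fun x y => x ≠ y) ∧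
      b = a * (w.map (fun i => (sI i : Equiv.Perm (Wd r g)))).prod ∧
      ∀ i, w.head? = some i → s(a, a * sI i) ∈ p.edges := by
  induction p with
  | nil => exact ⟨[], by simp⟩
  | @cons a c b h p ih =>
    rw [Walk.isTrail_cons] at hp
    obtain ⟨w, hw1, hw2, hw3, hw4⟩ := ih hp.1
    have h' := h
    obtain ⟨hne, i, hi⟩ := h'
    refine ⟨i :: w, by simp [hw1], ?_, ?_, ?_⟩
    · cases w with
      | nil => simp
      | cons j w' =>
        rw [List.isChain_cons_cons]
        refine ⟨?_, hw2⟩
        intro hij
        subst hij
        apply hp.2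
        have h5 := hw4 i (by simp)
        have h6 : c * sI i = a := by rw [hi, mul_assoc, sI_mul_self, mul_one]
        rw [h6] at h5
        rwa [Sym2.eq_swap] at h5
    · rw [List.map_cons, List.prod_cons, ← mul_assoc, ← hi]
      exact hw3
    · intro j hj
      simp only [List.head?_cons, Option.some.injEq] at hj
      subst hj
      rw [Walk.edges_cons, ← hi]
      simp

lemma cay_girth {a : Equiv.Perm (Wd r g)} (c : (cay r g).Walk a a) (hc : c.IsCycle) :
    g < c.length := by
  by_contra hcon
  push Not at hcon
  obtain ⟨w, hw1, hw2, hw3, -⟩ := trail_word c hc.isTrail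
  have h1 := prod_apply (g := g) w (by omega) hw2
  have h2 : (w.map (fun i => (sI i : Equiv.Perm (Wd r g)))).prod = 1 := by
    simpa using hw3.symm
  rw [h2] at h1
  have h3 := hc.three_le_length
  have h4 : w = [] := by
    rw [← h1]
    rfl
  rw [h4] at hw1
  simp at hw1
  omega

end Cayley

/-- Regular graphs of large girth. -/
lemma exists_regular_girth (r g : ℕ) (hg : 1 ≤ g) :
    ∃ n : ℕ, 0 < n ∧ ∃ G : SimpleGraph (Fin n), (∀ v, (G.neighborSet v).ncard = r) ∧
      ∀ (a : Fin n) (c : G.Walk a a), c.IsCycle → g < c.length := by
  classical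
  let V := Equiv.Perm (Wd r g)
  let e : V ≃ Fin (Fintype.card V) := Fintype.equivFin V
  refine ⟨Fintype.card V, Fintype.card_pos, (cay r g).map e.toEmbedding, ?_, ?_⟩
  · intro v
    let f : cay r g ≃g (cay r g).map e.toEmbedding := SimpleGraph.Iso.map e (cay r g)
    have hfe : ∀ x, f (e.symm x) = x := fun x => e.apply_symm_apply x
    have h1 : ((cay r g).map e.toEmbedding).neighborSet v
        = e '' ((cay r g).neighborSet (e.symm v)) := by
      ext u
      have h2 := f.map_adj_iff (v := e.symm v) (w := e.symm u)
      have h3 : f (e.symm v) = v := hfe v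
      have h4 : f (e.symm u) = u := hfe u
      rw [h3, h4] at h2
      simp only [mem_neighborSet, Set.mem_image]
      rw [h2]
      constructor
      · intro h
        exact ⟨e.symm u, h, by simp⟩
      · rintro ⟨b, hb, hu⟩
        rw [← hu, Equiv.symm_apply_apply]
        exact hb
    rw [h1, Set.ncard_image_of_injective _ e.injective]
    exact cay_degree hg _
  · intro a c hc
    let f : (cay r g).map e.toEmbedding ≃g cay r g := (SimpleGraph.Iso.map e (cay r g)).symm
    have h1 := cay_girth (c.map f.toHom) (hc.map f.injective)
    rwa [Walk.length_map] at h1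

end Pool.Agent.Lib.MP_8888ff_co
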